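import Pool.Agent.Helper23.BK.EntE
import Pool.Agent.Helper23.BK.Shift
import Pool.Agent.Helper23.BK.Count

set_option autoImplicit false

/-!
# Project BL: case E with an additive constant

The proofs are those of helper69 and helper8 (`Helper23/BK/AvgE.lean`, `Helper23/BK/CaseE.lean`).
-/

namespace Pool.Agent.Helper21.BL

open Finset Pool.Agent.Helper24.MD Pool.Agent.Helper23.BK

/-- `dt_sep` for all but `r + r ^ 4` of the `t` (`count_exc`), `dt_right` and
`hh ≤ log r` (`hh_le_log_card`) for the others; then `av_comm` and `IH`. -/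
theorem avg_trunc1 (ε c : ℝ) (hε : 0 ≤ ε) (T : Finset ℕ) (hTn : T.Nonempty) (p j : ℕ)
    (hp : p.Prime) (hT : Inj T p) (r : ℕ) (X : Finset ℕ) (hX : X.Nonempty)
    (hXp : ∀ x ∈ X, 0 < x) (Y : Finset ℕ) (hY : Y.Nonempty)
    (hXr : (X.image (cx p (p ^ (j + 1)))).card ≤ r)
    (hYr : (Y.image (rY (p ^ (j + 1)))).card ≤ r)
    (IH : ∀ X' : Finset ℕ, X'.Nonempty → (∀ x ∈ X', 0 < x) → ∀ y ∈ Y,
      av T (fun t => dt t X' (cl (rY (p ^ (j + 1))) Y y)) ≤
        ε * Real.log (X'.card : ℝ) + ε * Real.log ((cl (rY (p ^ (j + 1))) Y y).card : ℝ) + c) :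
    av T (fun t => dt t X Y) ≤ ((r : ℝ) + (r : ℝ) ^ 4) * Real.log r / (T.card : ℝ) +
      ε * Real.log (X.card : ℝ) +
        ε * (Real.log (Y.card : ℝ) - hh (rY (p ^ (j + 1))) Y) + c := by
  classical
  have hlr : 0 ≤ Real.log (r : ℝ) := Real.log_natCast_nonneg r
  have hTc : (0 : ℝ) < T.card := by exact_mod_cast hTn.card_pos
  -- one value of `t`
  have h1 : ∀ t ∈ T, dt t X Y ≤ (if Sep t p j X Y then 0 else Real.log (r : ℝ)) +
      av X (fun x => av Y (fun y =>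
        dt t (cl (cx p (p ^ (j + 1))) X x) (cl (rY (p ^ (j + 1))) Y y))) := by
    intro t _
    split_ifs with hs
    · rw [zero_add]
      exact dt_sep t p j X Y hX hY hs
    · refine le_trans (dt_right t p j hp X Y hX hXp hY) ?_
      gcongr
      refine le_trans (hh_le_log_card _ X hX) ?_
      refine Real.log_le_log ?_ (by exact_mod_cast hXr)
      exact_mod_cast (hX.image _).card_pos
  have h2 : av T (fun t => dt t X Y) ≤
      av T (fun t => if Sep t p j X Y then 0 else Real.log (r : ℝ)) +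
      av T (fun t => av X (fun x => av Y (fun y =>
        dt t (cl (cx p (p ^ (j + 1))) X x) (cl (rY (p ^ (j + 1))) Y y)))) := by
    rw [← av_add]
    exact av_mono T _ _ h1
  -- the exceptional `t`
  have h3 : av T (fun t => if Sep t p j X Y then 0 else Real.log (r : ℝ)) ≤
      ((r : ℝ) + (r : ℝ) ^ 4) * Real.log r / (T.card : ℝ) := by
    unfold av
    refine div_le_div_of_nonneg_right ?_ hTc.le
    have h4 : ∑ t ∈ T, (if Sep t p j X Y then 0 else Real.log (r : ℝ)) =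
        ((T.filter (fun t => ¬ Sep t p j X Y)).card : ℝ) * Real.log r := by
      have h5 : ∀ t ∈ T, (if Sep t p j X Y then 0 else Real.log (r : ℝ)) =
          if ¬ Sep t p j X Y then Real.log (r : ℝ) else 0 := by
        intro t _
        by_cases hs : Sep t p j X Y
        · rw [if_pos hs, if_neg (not_not.2 hs)]
        · rw [if_neg hs, if_pos hs]
      rw [Finset.sum_congr rfl h5, ← Finset.sum_filter, Finset.sum_const, nsmul_eq_mul]
    rw [h4]
    have h6 := count_exc p j hp T hT X Y hXp r hXr hYr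
    have h7 : ((T.filter (fun t => ¬ Sep t p j X Y)).card : ℝ) ≤ (r : ℝ) + (r : ℝ) ^ 4 := by
      have h8 : (T.filter (fun t => ¬ Sep t p j X Y)).card ≤ r + r ^ 4 := by
        convert h6
      exact_mod_cast h8
    exact mul_le_mul_of_nonneg_right h7 hlr
  -- the average of the classes
  have h9 : av T (fun t => av X (fun x => av Y (fun y =>
        dt t (cl (cx p (p ^ (j + 1))) X x) (cl (rY (p ^ (j + 1))) Y y)))) =
      av X (fun x => av Y (fun y => av T (fun t =>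
        dt t (cl (cx p (p ^ (j + 1))) X x) (cl (rY (p ^ (j + 1))) Y y)))) := by
    rw [av_comm]
    congr 1
    funext x
    rw [av_comm]
  have h10 : av X (fun x => av Y (fun y => av T (fun t =>
        dt t (cl (cx p (p ^ (j + 1))) X x) (cl (rY (p ^ (j + 1))) Y y)))) ≤
      av X (fun x => av Y (fun y =>
        (ε * Real.log ((cl (cx p (p ^ (j + 1))) X x).card : ℝ) + c) +
          ε * Real.log ((cl (rY (p ^ (j + 1))) Y y).card : ℝ))) := by
    refine av_mono X _ _ fun x hx => av_mono Y _ _ fun y hy => ?_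
    rw [add_right_comm]
    refine IH _ ⟨x, mem_cl_self _ X x hx⟩ ?_ y hy
    intro z hz
    unfold cl at hz
    exact hXp z (Finset.mem_filter.1 hz).1
  have h11 : av X (fun x => av Y (fun y =>
        (ε * Real.log ((cl (cx p (p ^ (j + 1))) X x).card : ℝ) + c) +
          ε * Real.log ((cl (rY (p ^ (j + 1))) Y y).card : ℝ))) =
      ε * (Real.log (X.card : ℝ) - hh (cx p (p ^ (j + 1))) X) + c +
        ε * (Real.log (Y.card : ℝ) - hh (rY (p ^ (j + 1))) Y) := by
    have h12 : ∀ x : ℕ, av Y (fun y =>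
        (ε * Real.log ((cl (cx p (p ^ (j + 1))) X x).card : ℝ) + c) +
          ε * Real.log ((cl (rY (p ^ (j + 1))) Y y).card : ℝ)) =
        (ε * Real.log ((cl (cx p (p ^ (j + 1))) X x).card : ℝ) + c) +
          ε * (Real.log (Y.card : ℝ) - hh (rY (p ^ (j + 1))) Y) := by
      intro x
      rw [av_add, av_const Y hY, av_mul, log_card_eq]
    simp only [h12]
    rw [av_add, av_add, av_const X hX, av_const X hX, av_mul, log_card_eq]
  have h13 : 0 ≤ ε * hh (cx p (p ^ (j + 1))) X := mul_nonneg hε (hh_nonneg _ X hX)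
  rw [h9] at h2
  rw [h11] at h10
  linarith [h2, h3, h10, h13]

/-- the cost of passing to a subset of relative size at least `1 - δ` -/
private theorem CaseE_log {δ a b : ℝ} (hδ : 0 < δ) (hδ1 : δ ≤ 1 / 2) (ha : 0 < a)
    (h : (1 - δ) * a ≤ b) : Real.log a - Real.log b ≤ 2 * δ := by
  have h1 : 0 < 1 - δ := by linarith
  have hb : 0 < b := lt_of_lt_of_le (mul_pos h1 ha) h
  have h2 : Real.log ((1 - δ) * a) ≤ Real.log b := Real.log_le_log (mul_pos h1 ha) h
  rw [Real.log_mul h1.ne' ha.ne'] at h2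
  have h3 : Real.log ((1 - δ)⁻¹) ≤ (1 - δ)⁻¹ - 1 := Real.log_le_sub_one_of_pos (inv_pos.2 h1)
  rw [Real.log_inv] at h3
  have h4 : (1 - δ)⁻¹ - 1 ≤ 2 * δ := by
    have h5 : (1 - δ)⁻¹ - 1 = δ / (1 - δ) := by
      field_simp
      ring
    rw [h5, div_le_iff₀ h1]
    nlinarith
  linarith

/-- Case E: `trunc` for `X` (map `cx`) and `Y` (map `rY`), `dt_restrict` (cost `≤ 4 δ`),
`avg_trunc`, `ent_trunc`. -/
theorem caseE1 (ε κ C4 δ c : ℝ) (hε : 0 < ε) (hκ : 0 < κ) (hκ1 : κ ≤ 1) (hC4 : 0 ≤ C4)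
    (hδ : 0 < δ) (hδ1 : δ ≤ 1 / 2) (hδκ : δ ≤ κ / 4) (r : ℕ) (hr : Real.exp (C4 / δ) ≤ (r : ℝ))
    (T : Finset ℕ) (hTn : T.Nonempty)
    (hm : 4 * δ + ((r : ℝ) + (r : ℝ) ^ 4) * Real.log r / (T.card : ℝ) ≤ ε * (κ ^ 2 / 8))
    (p j t0 : ℕ) (hp : p.Prime) (hT : Inj T p) (X : Finset ℕ) (hX : X.Nonempty)
    (hXp : ∀ x ∈ X, 0 < x) (Y : Finset ℕ) (hY : Y.Nonempty)
    (hlo : κ / 2 * (Y.card : ℝ) ≤ ((Y.filter (fun y => p ^ (j + 1) ∣ y + t0)).card : ℝ))
    (hhi : ((Y.filter (fun y => p ^ (j + 1) ∣ y + t0)).card : ℝ) ≤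
      (1 - κ / 2) * (Y.card : ℝ))
    (hX4 : hh (cx p (p ^ (j + 1))) X ≤ C4) (hY4 : hh (rY (p ^ (j + 1))) Y ≤ C4)
    (IH : ∀ X' : Finset ℕ, X'.Nonempty → (∀ x ∈ X', 0 < x) → ∀ Y' ⊆ Y, Y'.Nonempty →
      (∃ y ∈ Y, Y' ⊆ cl (rY (p ^ (j + 1))) Y y) →
      av T (fun t => dt t X' Y') ≤
        ε * Real.log (X'.card : ℝ) + ε * Real.log (Y'.card : ℝ) + c) :
    av T (fun t => dt t X Y) ≤ ε * Real.log (X.card : ℝ) + ε * Real.log (Y.card : ℝ) + c := by
  obtain ⟨X', hXs, hXn, hXδ, hXi, -⟩ :=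
    trunc (cx p (p ^ (j + 1))) X hX C4 δ hX4 hC4 hδ hδ1
  obtain ⟨Y', hYs, hYn, hYδ, hYi, hYu⟩ :=
    trunc (rY (p ^ (j + 1))) Y hY C4 δ hY4 hC4 hδ hδ1
  have hXc : (0 : ℝ) < (X.card : ℝ) := by exact_mod_cast hX.card_pos
  have hYc : (0 : ℝ) < (Y.card : ℝ) := by exact_mod_cast hY.card_pos
  have hXc' : (0 : ℝ) < (X'.card : ℝ) := by exact_mod_cast hXn.card_pos
  have hYc' : (0 : ℝ) < (Y'.card : ℝ) := by exact_mod_cast hYn.card_pos
  have hXr : (X'.image (cx p (p ^ (j + 1)))).card ≤ r := by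
    exact_mod_cast hXi.trans hr
  have hYr : (Y'.image (rY (p ^ (j + 1)))).card ≤ r := by
    exact_mod_cast hYi.trans hr
  have h1 := CaseE_log hδ hδ1 hXc hXδ
  have h2 := CaseE_log hδ hδ1 hYc hYδ
  -- passing to the subsets
  have h3 : av T (fun t => dt t X Y) ≤ 4 * δ + av T (fun t => dt t X' Y') := by
    have h4 := av_mono T (fun t => dt t X Y) (fun t => 4 * δ + dt t X' Y') (fun t _ => by
      have := dt_restrict t hXs hYs hXn hYn
      linarith)
    rw [av_add, av_const T hTn] at h4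
    exact h4
  have h5 := avg_trunc1 ε c hε.le T hTn p j hp hT r X' hXn (fun x hx => hXp x (hXs hx)) Y' hYn
    hXr hYr (fun X'' hX'' hX''p y hy => by
      refine IH X'' hX'' hX''p (cl (rY (p ^ (j + 1))) Y' y) ?_ ?_ ⟨y, hYs hy, ?_⟩
      · exact (Finset.filter_subset _ _).trans hYs
      · exact ⟨y, mem_cl_self _ _ y hy⟩
      · intro z hz
        unfold cl at hz ⊢
        rw [Finset.mem_filter] at hz ⊢
        exact ⟨hYs hz.1, hz.2⟩)
  have h6 := ent_trunc κ δ hκ hκ1 hδ hδκ p j t0 hp Y Y' hY hYs hYn hYδ hYu hlo hhi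
  have h7 : Real.log (X'.card : ℝ) ≤ Real.log (X.card : ℝ) :=
    Real.log_le_log hXc' (by exact_mod_cast Finset.card_le_card hXs)
  have h8 : Real.log (Y'.card : ℝ) ≤ Real.log (Y.card : ℝ) :=
    Real.log_le_log hYc' (by exact_mod_cast Finset.card_le_card hYs)
  have h9 := mul_le_mul_of_nonneg_left h6 hε.le
  have h10 := mul_le_mul_of_nonneg_left h7 hε.le
  have h11 := mul_le_mul_of_nonneg_left h8 hε.le
  have h12 : ε * (Real.log (Y'.card : ℝ) - hh (rY (p ^ (j + 1))) Y') =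
      ε * Real.log (Y'.card : ℝ) - ε * hh (rY (p ^ (j + 1))) Y' := by ring
  rw [h12] at h5
  linarith

end Pool.Agent.Helper21.BL
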