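import Pool.Agent.Helper23.BK.Tower
import Pool.Agent.Helper23.BK.Shift

set_option autoImplicit false

/-!
# Project BL (extension of BK): special primes

`T` is a finite set, `p` a prime dividing a difference of `T`, `t0 ∈ T`, `p ^ (s + 1)` divides
`y + t0` for all `y ∈ Y` and no difference `t - t0`, `t ∈ T`, `t ≠ t0`.
-/

namespace Pool.Agent.Helper21.BL

open Finset Pool.Agent.Helper24.MD Pool.Agent.Helper23.BK

/-- congruent numbers, not divisible by the modulus `p ^ n`, have the same valuation -/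
theorem fac_eq {p n a b : ℕ} (hp : p.Prime) (ha : 0 < a) (hb : 0 < b) (h : a ≡ b [MOD p ^ n])
    (hn : ¬ p ^ n ∣ a) : a.factorization p = b.factorization p := by
  have h1 : ∀ k, p ^ k ∣ a ↔ k ≤ a.factorization p := fun k =>
    hp.pow_dvd_iff_le_factorization ha.ne'
  have h2 : ∀ k, p ^ k ∣ b ↔ k ≤ b.factorization p := fun k =>
    hp.pow_dvd_iff_le_factorization hb.ne'
  have h3 : ∀ k ≤ n, (p ^ k ∣ a ↔ p ^ k ∣ b) := fun k hk => h.dvd_iff (pow_dvd_pow p hk)
  have h4 : a.factorization p < n := by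
    by_contra hcon
    exact hn ((h1 n).2 (not_lt.1 hcon))
  have h5 := (h2 _).1 ((h3 _ h4.le).1 ((h1 _).2 le_rfl))
  have h6 : ¬ p ^ (a.factorization p + 1) ∣ b := by
    intro hd
    have := (h1 _).1 ((h3 _ h4).2 hd)
    omega
  rw [h2] at h6
  omega

/-- and congruent cofactors -/
theorem cof_eq {p n a b : ℕ} (hp : p.Prime) (ha : 0 < a) (hb : 0 < b) (h : a ≡ b [MOD p ^ n])
    (hn : ¬ p ^ n ∣ a) :
    a / p ^ a.factorization p ≡ b / p ^ b.factorization p [MOD p ^ (n - a.factorization p)] := by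
  have he := fac_eq hp ha hb h hn
  rw [← he]
  have h4 : a.factorization p < n := by
    by_contra hcon
    exact hn ((hp.pow_dvd_iff_le_factorization ha.ne').2 (not_lt.1 hcon))
  have h1 : p ^ a.factorization p ∣ a := Nat.ordProj_dvd a p
  have h2 : p ^ a.factorization p ∣ b := by
    rw [he]
    exact Nat.ordProj_dvd b p
  have hc : p ^ a.factorization p ≠ 0 := pow_ne_zero _ hp.ne_zero
  apply Nat.ModEq.mul_left_cancel' hc
  rw [Nat.mul_div_cancel' h1, Nat.mul_div_cancel' h2, ← pow_add,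
    Nat.add_sub_cancel' h4.le]
  exact h

theorem av_congr {α : Type*} (S : Finset α) (F F' : α → ℝ) (h : ∀ x ∈ S, F x = F' x) :
    av S F = av S F' := by
  unfold av
  rw [Finset.sum_congr rfl h]

/-- a finer partition with at most `m` classes inside every class -/
theorem hh_refine {α β γ : Type*} [DecidableEq β] [DecidableEq γ] (φ : α → β) (ψ : α → γ)
    (S : Finset α) (hS : S.Nonempty) (m : ℕ)
    (hf : ∀ x ∈ S, ∀ y ∈ S, φ x = φ y → ψ x = ψ y)
    (h : ∀ x ∈ S, ((cl ψ S x).image φ).card ≤ m) :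
    hh φ S ≤ hh ψ S + Real.log (m : ℝ) := by
  have h1 : ∀ x ∈ S, av (cl ψ S x) (fun y => Real.log ((cl φ S y).card : ℝ)) =
      Real.log ((cl ψ S x).card : ℝ) - hh φ (cl ψ S x) := by
    intro x hx
    rw [← log_card_eq]
    refine av_congr _ _ _ fun y hy => ?_
    have hy' : y ∈ S ∧ ψ y = ψ x := Finset.mem_filter.1 hy
    have : cl φ (cl ψ S x) y = cl φ S y := by
      ext z
      unfold cl
      simp only [Finset.mem_filter]
      constructor
      · rintro ⟨⟨hz, _⟩, hz2⟩
        exact ⟨hz, hz2⟩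
      · rintro ⟨hz, hz2⟩
        exact ⟨⟨hz, (hf z hz y hy'.1 hz2).trans hy'.2⟩, hz2⟩
    show Real.log ((cl φ S y).card : ℝ) = Real.log ((cl φ (cl ψ S x) y).card : ℝ)
    rw [this]
  have h2 := tower ψ S (fun y => Real.log ((cl φ S y).card : ℝ))
  have h3 : av S (fun x => av (cl ψ S x) (fun y => Real.log ((cl φ S y).card : ℝ))) =
      av S (fun x => Real.log ((cl ψ S x).card : ℝ)) - av S (fun x => hh φ (cl ψ S x)) := by
    rw [av_congr S _ (fun x => Real.log ((cl ψ S x).card : ℝ) + (-1) * hh φ (cl ψ S x))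
      (fun x hx => by rw [h1 x hx]; ring), av_add, av_mul]
    ring
  have h4 : av S (fun x => hh φ (cl ψ S x)) ≤ Real.log (m : ℝ) := by
    rw [← av_const S hS (Real.log (m : ℝ))]
    refine av_mono S _ _ fun x hx => ?_
    have hne : (cl ψ S x).Nonempty := ⟨x, mem_cl_self ψ S x hx⟩
    refine (hh_le_log_card φ _ hne).trans ?_
    apply Real.log_le_log
    · exact_mod_cast Finset.card_pos.2 (hne.image φ)
    · exact_mod_cast h x hx
  rw [h3, log_card_eq, log_card_eq] at h2
  linarith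

/-- any partition of `Y`: loss at most its entropy -/
theorem dt_right_any {β : Type*} [DecidableEq β] (ψ : ℕ → β) (t : ℕ) (X Y : Finset ℕ)
    (hX : X.Nonempty) (hY : Y.Nonempty) :
    dt t X Y ≤ hh ψ Y + av Y (fun y => dt t X (cl ψ Y y)) := by
  have h1 : ∀ y ∈ Y, Real.log ((sp t X (cl ψ Y y)).card : ℝ) ≤
      Real.log ((sp t X Y).card : ℝ) := by
    intro y hy
    apply Real.log_le_log
    · have : (sp t X (cl ψ Y y)).Nonempty := hX.image₂ ⟨y, mem_cl_self ψ Y y hy⟩
      exact_mod_cast Finset.card_pos.2 this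
    · exact_mod_cast Finset.card_le_card
        (Finset.image₂_subset_left (Finset.filter_subset _ _))
  have h2 := av_mono Y _ _ h1
  rw [av_const Y hY] at h2
  have h3 : av Y (fun y => dt t X (cl ψ Y y)) = Real.log (X.card : ℝ) +
      (Real.log (Y.card : ℝ) - hh ψ Y) - av Y (fun y =>
        Real.log ((sp t X (cl ψ Y y)).card : ℝ)) := by
    rw [← log_card_eq]
    unfold dt
    rw [show (fun y => Real.log (X.card : ℝ) + Real.log ((cl ψ Y y).card : ℝ) -
      Real.log ((sp t X (cl ψ Y y)).card : ℝ)) = (fun y => Real.log (X.card : ℝ) +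
        (Real.log ((cl ψ Y y).card : ℝ) + (-1) *
          Real.log ((sp t X (cl ψ Y y)).card : ℝ))) from by
        funext y
        ring]
    rw [av_add, av_const Y hY, av_add, av_mul]
    ring
  rw [h3]
  unfold dt
  linarith

/-- the arithmetic of `dt_zero_coarse` -/
theorem coarse_inj {p j s t t0 x x' y y' : ℕ} (hp : p.Prime) (hs : s ≤ j)
    (ht : ¬ p ^ (s + 1) ∣ max t t0 - min t t0) (hx : 0 < x) (hx' : 0 < x') (hy : 0 < y)
    (hy' : 0 < y') (hd : p ^ (j + 1) ∣ y + t0) (hd' : p ^ (j + 1) ∣ y' + t0)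
    (h : x * (y + t) = x' * (y' + t)) :
    cx p (p ^ (j + 1 - s)) x = cx p (p ^ (j + 1 - s)) x' := by
  have hab : y + t ≡ y' + t [MOD p ^ (j + 1)] := by
    have h1 : y + t0 ≡ y' + t0 [MOD p ^ (j + 1)] :=
      ((Nat.modEq_zero_iff_dvd.2 hd).trans (Nat.modEq_zero_iff_dvd.2 hd').symm)
    exact (Nat.ModEq.add_right_cancel' t0 h1).add_right t
  have hn : ¬ p ^ (s + 1) ∣ y + t := by
    intro h1
    have h2 : p ^ (s + 1) ∣ y + t0 := (pow_dvd_pow p (by omega)).trans hd
    apply ht
    rcases le_total t t0 with h3 | h3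
    · rw [max_eq_right h3, min_eq_left h3]
      have := Nat.dvd_sub h2 h1
      rwa [show y + t0 - (y + t) = t0 - t by omega] at this
    · rw [max_eq_left h3, min_eq_right h3]
      have := Nat.dvd_sub h1 h2
      rwa [show y + t - (y + t0) = t - t0 by omega] at this
  have hn' : ¬ p ^ (j + 1) ∣ y + t := fun h1 => hn ((pow_dvd_pow p (by omega)).trans h1)
  have ha : 0 < y + t := by omega
  have hb : 0 < y' + t := by omega
  have he := fac_eq hp ha hb hab hn'
  have hes : (y + t).factorization p ≤ s := by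
    by_contra hcon
    exact hn ((hp.pow_dvd_iff_le_factorization ha.ne').2 (by omega))
  have hcof := cof_eq hp ha hb hab hn'
  have hcof' : (y + t) / p ^ (y + t).factorization p ≡
      (y' + t) / p ^ (y' + t).factorization p [MOD p ^ (j + 1 - s)] :=
    hcof.of_dvd (pow_dvd_pow p (by omega))
  have hv : x.factorization p = x'.factorization p := by
    have h1 := congrArg (fun n : ℕ => n.factorization p) h
    simp only [Nat.factorization_mul hx.ne' ha.ne', Nat.factorization_mul hx'.ne' hb.ne',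
      Finsupp.add_apply] at h1
    omega
  have hc : (x / p ^ x.factorization p) * ((y + t) / p ^ (y + t).factorization p) =
      (x' / p ^ x'.factorization p) * ((y' + t) / p ^ (y' + t).factorization p) := by
    rw [← Nat.ordCompl_mul, ← Nat.ordCompl_mul, h]
  have hu : IsUnit (((y + t) / p ^ (y + t).factorization p : ℕ) : ZMod (p ^ (j + 1 - s))) := by
    rw [ZMod.isUnit_iff_coprime]
    exact Nat.Coprime.pow_right _ (Nat.coprime_ordCompl hp ha.ne').symm
  have hu2 : (((y + t) / p ^ (y + t).factorization p : ℕ) : ZMod (p ^ (j + 1 - s))) =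
      (((y' + t) / p ^ (y' + t).factorization p : ℕ) : ZMod (p ^ (j + 1 - s))) :=
    (ZMod.natCast_eq_natCast_iff _ _ _).2 hcof'
  have hc2 := congrArg (fun n : ℕ => (n : ZMod (p ^ (j + 1 - s)))) hc
  simp only [Nat.cast_mul] at hc2
  rw [← hu2] at hc2
  unfold cx
  rw [Prod.mk.injEq]
  exact ⟨hv, hu.mul_right_cancel hc2⟩

/-- coarse classes of `x` are seen if `y + t` has a fixed valuation `≤ s` -/
theorem dt_zero_coarse (t t0 p j s : ℕ) (hp : p.Prime) (hs : s ≤ j)
    (ht : ¬ p ^ (s + 1) ∣ max t t0 - min t t0) (X Y : Finset ℕ) (hX : X.Nonempty)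
    (hXp : ∀ x ∈ X, 0 < x) (hY : Y.Nonempty) (hYp : ∀ y ∈ Y, 0 < y)
    (hdiv : ∀ y ∈ Y, p ^ (j + 1) ∣ y + t0) :
    dt t X Y ≤ av X (fun x => dt t (cl (cx p (p ^ (j + 1 - s))) X x) Y) := by
  have h := step_left (fun x y : ℕ => x * (y + t)) (cx p (p ^ (j + 1 - s))) (fun _ : ℕ => (0 : ℕ))
    X Y hX hY (fun x hx x' hx' y hy y' hy' _ h =>
      coarse_inj hp hs ht (hXp x hx) (hXp x' hx') (hYp y hy) (hYp y' hy') (hdiv y hy)
        (hdiv y' hy') h)
  have hcl : ∀ y ∈ Y, cl (fun _ : ℕ => (0 : ℕ)) Y y = Y := by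
    intro y _
    unfold cl
    exact Finset.filter_true_of_mem fun _ _ => rfl
  have h1 : av X (fun x => av Y (fun y => Real.log ((Finset.image₂ (fun x y : ℕ => x * (y + t))
      (cl (cx p (p ^ (j + 1 - s))) X x) (cl (fun _ : ℕ => (0 : ℕ)) Y y)).card : ℝ))) =
      av X (fun x => Real.log ((sp t (cl (cx p (p ^ (j + 1 - s))) X x) Y).card : ℝ)) := by
    refine av_congr _ _ _ fun x _ => ?_
    rw [av_congr Y _ (fun _ => Real.log ((sp t (cl (cx p (p ^ (j + 1 - s))) X x) Y).card : ℝ))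
      (fun y hy => by rw [hcl y hy]; rfl), av_const Y hY]
  rw [h1] at h
  have h2 : av X (fun x => dt t (cl (cx p (p ^ (j + 1 - s))) X x) Y) =
      (Real.log (X.card : ℝ) - hh (cx p (p ^ (j + 1 - s))) X) + Real.log (Y.card : ℝ) -
      av X (fun x => Real.log ((sp t (cl (cx p (p ^ (j + 1 - s))) X x) Y).card : ℝ)) := by
    rw [← log_card_eq]
    rw [av_congr X (fun x => dt t (cl (cx p (p ^ (j + 1 - s))) X x) Y) (fun x =>
      Real.log ((cl (cx p (p ^ (j + 1 - s))) X x).card : ℝ) + (Real.log (Y.card : ℝ) +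
        (-1) * Real.log ((sp t (cl (cx p (p ^ (j + 1 - s))) X x) Y).card : ℝ)))
      (fun x _ => by unfold dt; ring)]
    rw [av_add, av_add, av_const X hX, av_mul]
    ring
  rw [h2]
  unfold dt sp
  unfold sp at h
  linarith

end Pool.Agent.Helper21.BL
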