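import Pool.Agent.Helper21.BL.Defs
import Pool.Agent.Helper21.BL.Spec

set_option autoImplicit false

/-!
# Project BL: cases B and C with an additive constant

`caseB1`: only the classes `φ` of `X` matter; `φ` is the coarse class for special primes.
-/

namespace Pool.Agent.Helper21.BL

open Finset Pool.Agent.Helper24.MD Pool.Agent.Helper23.BK

/-- Case B, for any classes `φ` of `X` that are seen for all `t ≠ t0` -/
theorem caseB1 {β : Type*} [DecidableEq β] (φ : ℕ → β) (ε L c : ℝ) (hε : 0 < ε) (T : Finset ℕ)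
    (hm : 2 / ε ≤ (T.card : ℝ)) (t0 : ℕ) (ht0 : t0 ∈ T) (X : Finset ℕ) (hX : X.Nonempty)
    (hXp : ∀ x ∈ X, 0 < x) (Y Y0 : Finset ℕ) (hsub : Y0 ⊆ Y) (hne : Y0.Nonempty)
    (hzero : ∀ t ∈ T, t ≠ t0 → dt t X Y0 ≤ av X (fun x => dt t (cl φ X x) Y0))
    (hL : Real.log (Y.card : ℝ) - Real.log (Y0.card : ℝ) ≤ L)
    (hB : 2 * L / ε ≤ hh φ X)
    (IH : ∀ X' : Finset ℕ, X'.Nonempty → (∀ x ∈ X', 0 < x) → av T (fun t => dt t X' Y0) ≤
      ε * Real.log (X'.card : ℝ) + ε * Real.log (Y0.card : ℝ) + c) :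
    av T (fun t => dt t X Y) ≤ ε * Real.log (X.card : ℝ) + ε * Real.log (Y.card : ℝ) + c := by
  have hTn : T.Nonempty := ⟨t0, ht0⟩
  set H := hh φ X with hH
  have hH0 : 0 ≤ H := hh_nonneg _ X hX
  have hY0 : (0 : ℝ) < (Y0.card : ℝ) := by exact_mod_cast Finset.card_pos.2 hne
  have hYY : (Y0.card : ℝ) ≤ (Y.card : ℝ) := by exact_mod_cast Finset.card_le_card hsub
  have hlogY : Real.log (Y0.card : ℝ) ≤ Real.log (Y.card : ℝ) := Real.log_le_log hY0 hYY
  have hTc : (0 : ℝ) < (T.card : ℝ) := by exact_mod_cast Finset.card_pos.2 hTn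
  have hone : ∀ t ∈ T, dt t X Y ≤ L + ((if t = t0 then H else 0) +
      av X (fun x => dt t (cl φ X x) Y0)) := by
    intro t ht
    have h1 := dt_restrict t (Finset.Subset.refl X) hsub hX hne
    by_cases htt : t = t0
    · rw [if_pos htt]
      have h2 := dt_left_any φ t X Y0 hX hne
      linarith
    · rw [if_neg htt]
      have h2 := hzero t ht htt
      linarith
  have hav := av_mono T _ _ hone
  rw [av_add, av_const T hTn, av_add, av_comm] at hav
  have hind : av T (fun t => if t = t0 then H else 0) = H / (T.card : ℝ) := by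
    unfold av
    rw [Finset.sum_ite_eq' T t0 (fun _ => H), if_pos ht0]
  rw [hind] at hav
  have hav2 : av X (fun x => av T (fun t => dt t (cl φ X x) Y0)) ≤
      av X (fun x => ε * Real.log ((cl φ X x).card : ℝ) +
        (ε * Real.log (Y0.card : ℝ) + c)) := by
    refine av_mono X _ _ (fun x hx => ?_)
    have := IH (cl φ X x) ⟨x, mem_cl_self _ _ _ hx⟩
      (fun z hz => hXp z ((Finset.mem_filter.1 hz).1))
    linarith
  rw [av_add, av_const X hX, av_mul, log_card_eq] at hav2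
  have e1 : ε * Real.log (Y0.card : ℝ) ≤ ε * Real.log (Y.card : ℝ) :=
    mul_le_mul_of_nonneg_left hlogY hε.le
  have e2 : L ≤ ε / 2 * H := by
    rw [div_le_iff₀ hε] at hB
    linarith
  have e3 : H / (T.card : ℝ) ≤ ε / 2 * H := by
    rw [div_le_iff₀ hTc]
    rw [div_le_iff₀ hε] at hm
    have : 1 * H ≤ (ε / 2 * (T.card : ℝ)) * H := by
      apply mul_le_mul_of_nonneg_right _ hH0
      linarith
    linarith
  have e4 : ε * (Real.log (X.card : ℝ) - hh φ X) =
      ε * Real.log (X.card : ℝ) - ε * H := by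
    rw [← hH]
    ring
  rw [e4] at hav2
  linarith

/-- Case C with an additive constant: `dt_right` for every `t` -/
theorem caseC1 (ε c : ℝ) (hε : 0 < ε) (T : Finset ℕ) (hTn : T.Nonempty) (p j : ℕ)
    (hp : p.Prime) (X : Finset ℕ) (hX : X.Nonempty) (hXp : ∀ x ∈ X, 0 < x) (Y : Finset ℕ)
    (hY : Y.Nonempty)
    (hC : hh (cx p (p ^ (j + 1))) X ≤ ε * hh (rY (p ^ (j + 1))) Y)
    (IH : ∀ X' : Finset ℕ, X'.Nonempty → (∀ x ∈ X', 0 < x) → ∀ y ∈ Y,
      av T (fun t => dt t X' (cl (rY (p ^ (j + 1))) Y y)) ≤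
        ε * Real.log (X'.card : ℝ) + ε * Real.log ((cl (rY (p ^ (j + 1))) Y y).card : ℝ) + c) :
    av T (fun t => dt t X Y) ≤ ε * Real.log (X.card : ℝ) + ε * Real.log (Y.card : ℝ) + c := by
  set M := p ^ (j + 1) with hM
  have hH0 : 0 ≤ hh (cx p M) X := hh_nonneg _ X hX
  have hav := av_mono T _ _ (fun t (_ : t ∈ T) => dt_right t p j hp X Y hX hXp hY)
  rw [av_add, av_const T hTn, av_comm] at hav
  have hav2 : av X (fun x => av T (fun t => av Y (fun y =>
        dt t (cl (cx p M) X x) (cl (rY M) Y y)))) ≤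
      av X (fun x => ε * Real.log ((cl (cx p M) X x).card : ℝ) +
        (ε * (Real.log (Y.card : ℝ) - hh (rY M) Y) + c)) := by
    refine av_mono X _ _ (fun x hx => ?_)
    rw [av_comm]
    have h1 : av Y (fun y => av T (fun t => dt t (cl (cx p M) X x) (cl (rY M) Y y))) ≤
        av Y (fun y => (ε * Real.log ((cl (cx p M) X x).card : ℝ) + c) +
          ε * Real.log ((cl (rY M) Y y).card : ℝ)) := by
      refine av_mono Y _ _ (fun y hy => ?_)
      have := IH (cl (cx p M) X x) ⟨x, mem_cl_self _ _ _ hx⟩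
        (fun z hz => hXp z ((Finset.mem_filter.1 hz).1)) y hy
      linarith
    rw [av_add, av_const Y hY, av_mul, log_card_eq] at h1
    linarith
  rw [av_add, av_const X hX, av_mul, log_card_eq] at hav2
  have e1 : ε * (Real.log (X.card : ℝ) - hh (cx p M) X) =
      ε * Real.log (X.card : ℝ) - ε * hh (cx p M) X := by ring
  have e2 : ε * (Real.log (Y.card : ℝ) - hh (rY M) Y) =
      ε * Real.log (Y.card : ℝ) - ε * hh (rY M) Y := by ring
  rw [e1, e2] at hav2
  have e3 : 0 ≤ ε * hh (cx p M) X := mul_nonneg hε.le hH0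
  linarith

end Pool.Agent.Helper21.BL
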