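import Pool.Agent.Helper23.BK.Defs

set_option autoImplicit false

/-!
# Project BL (extension of BK, MP_120218): definitions
-/

namespace Pool.Agent.Helper21.BL

open Finset Pool.Agent.Helper24.MD Pool.Agent.Helper23.BK

/-- `p` is resolved: the valuations are constant on all translates of `Y` -/
def Res (T Y : Finset ℕ) (p : ℕ) : Prop :=
  ∀ t ∈ T, ∀ y ∈ Y, ∀ y' ∈ Y, (y + t).factorization p = (y' + t).factorization p

/-- `p` is special: `p ^ (s + 1)` divides `y + t0` for all `y` in `Y`, and no difference `t - t0`,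
`t ∈ T`, `t ≠ t0` -/
def Spec (T Y : Finset ℕ) (p s : ℕ) : Prop :=
  ∃ t0 ∈ T, (∀ y ∈ Y, p ^ (s + 1) ∣ y + t0) ∧
    ∀ t ∈ T, t ≠ t0 → ¬ p ^ (s + 1) ∣ max t t0 - min t t0

end Pool.Agent.Helper21.BL
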