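import Pool.Agent.Helper21.BL.Defs
import Pool.Agent.Helper21.BL.Spec

set_option autoImplicit false

/-! # Project BL: case E for a special prime, the potential -/

namespace Pool.Agent.Helper21.BL

open Finset Pool.Agent.Helper24.MD Pool.Agent.Helper23.BK

theorem Res.mono {T Y Z : Finset ℕ} {p : ℕ} (h : Res T Y p) (hZ : Z ⊆ Y) : Res T Z p :=
  fun t ht y hy y' hy' => h t ht y (hZ hy) y' (hZ hy')

theorem Spec.mono {T Y Z : Finset ℕ} {p s : ℕ} (h : Spec T Y p s) (hZ : Z ⊆ Y) :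
    Spec T Z p s := by
  obtain ⟨t0, ht0, h1, h2⟩ := h
  exact ⟨t0, ht0, fun y hy => h1 y (hZ hy), h2⟩

/-- translates by `t ≠ t0` are not divisible by `p ^ (s + 1)` -/
theorem not_dvd_shift {p s t t0 y : ℕ} (ht : ¬ p ^ (s + 1) ∣ max t t0 - min t t0)
    (h2 : p ^ (s + 1) ∣ y + t0) : ¬ p ^ (s + 1) ∣ y + t := by
  intro h1
  apply ht
  rcases le_total t t0 with h3 | h3
  · rw [max_eq_right h3, min_eq_left h3]
    have := Nat.dvd_sub h2 h1
    rwa [show y + t0 - (y + t) = t0 - t by omega] at this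
  · rw [max_eq_left h3, min_eq_right h3]
    have := Nat.dvd_sub h1 h2
    rwa [show y + t - (y + t0) = t - t0 by omega] at this

theorem modEq_shift {M t t0 y y' : ℕ} (h : y + t0 ≡ y' + t0 [MOD M]) :
    y + t ≡ y' + t [MOD M] :=
  (Nat.ModEq.add_right_cancel' t0 h).add_right t

/-- the valuation of `y + t`, `t ≠ t0`, is constant -/
theorem spec_const {Y : Finset ℕ} {p s t t0 : ℕ} (hp : p.Prime)
    (hYp : ∀ y ∈ Y, 0 < y) (h1 : ∀ y ∈ Y, p ^ (s + 1) ∣ y + t0)
    (ht : ¬ p ^ (s + 1) ∣ max t t0 - min t t0) :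
    ∀ y ∈ Y, ∀ y' ∈ Y, (y + t).factorization p = (y' + t).factorization p := by
  intro y hy y' hy'
  have ha := hYp y hy
  have hb := hYp y' hy'
  refine fac_eq hp (by omega) (by omega) (modEq_shift (t0 := t0) ?_)
    (not_dvd_shift ht (h1 y hy))
  exact (Nat.modEq_zero_iff_dvd.2 (h1 y hy)).trans (Nat.modEq_zero_iff_dvd.2 (h1 y' hy')).symm

/-- a special prime is resolved on the classes of the `y` with `¬ p ^ (j + 1) ∣ y + t0` -/
theorem res_class {T Y : Finset ℕ} {p s j t0 : ℕ} (hp : p.Prime)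
    (hYp : ∀ y ∈ Y, 0 < y) (h1 : ∀ y ∈ Y, p ^ (s + 1) ∣ y + t0)
    (h2 : ∀ t ∈ T, t ≠ t0 → ¬ p ^ (s + 1) ∣ max t t0 - min t t0) (y : ℕ)
    (hn : ¬ p ^ (j + 1) ∣ y + t0) : Res T (cl (rY (p ^ (j + 1))) Y y) p := by
  intro t ht a ha b hb
  unfold cl at ha hb
  rw [Finset.mem_filter] at ha hb
  by_cases htt : t = t0
  · subst htt
    have e1 : a ≡ y [MOD p ^ (j + 1)] := (ZMod.natCast_eq_natCast_iff _ _ _).1 ha.2
    have e2 : b ≡ y [MOD p ^ (j + 1)] := (ZMod.natCast_eq_natCast_iff _ _ _).1 hb.2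
    have ha0 := hYp a ha.1
    have hb0 := hYp b hb.1
    refine fac_eq hp (by omega) (by omega) ((e1.trans e2.symm).add_right t) ?_
    intro hd
    exact hn (((e1.add_right t).dvd_iff dvd_rfl).1 hd)
  · exact spec_const hp hYp h1 (h2 t ht htt) a ha.1 b hb.1

/-- the fine classes are at most `p ^ s` in every coarse class -/
theorem hh_fine (p j s : ℕ) (hp : p.Prime) (hs : s ≤ j) (X : Finset ℕ) (hX : X.Nonempty) :
    hh (cx p (p ^ (j + 1))) X ≤
      hh (cx p (p ^ (j + 1 - s))) X + (s : ℝ) * Real.log (p : ℝ) := by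
  have hdvd : p ^ (j + 1 - s) ∣ p ^ (j + 1) := pow_dvd_pow p (by omega)
  have h0 : ∀ x y : ℕ, (x.factorization p = y.factorization p →
      ((x / p ^ x.factorization p : ℕ) : ZMod (p ^ (j + 1))) =
        ((y / p ^ y.factorization p : ℕ) : ZMod (p ^ (j + 1))) →
      cx p (p ^ (j + 1 - s)) x = cx p (p ^ (j + 1 - s)) y) := by
    intro x y h1 h2
    unfold cx
    rw [Prod.mk.injEq]
    refine ⟨h1, ?_⟩
    rw [ZMod.natCast_eq_natCast_iff] at h2 ⊢
    exact h2.of_dvd hdvd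
  have h := hh_refine (cx p (p ^ (j + 1))) (cx p (p ^ (j + 1 - s))) X hX (p ^ s)
    (fun x _ y _ hxy => by
      unfold cx at hxy
      rw [Prod.mk.injEq] at hxy
      exact h0 x y hxy.1 hxy.2)
    (fun x hx => by
      have hne : NeZero (p ^ (j + 1)) := ⟨pow_ne_zero _ hp.ne_zero⟩
      rw [← Finset.card_range (p ^ s)]
      refine Finset.card_le_card_of_injOn (fun z => z.2.val / p ^ (j + 1 - s)) ?_ ?_
      · intro z _
        rw [Finset.coe_range, Set.mem_Iio]
        have h1 := ZMod.val_lt z.2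
        apply Nat.div_lt_of_lt_mul
        rwa [← pow_add, show j + 1 - s + s = j + 1 by omega]
      · intro z hz z' hz' heq
        rw [Finset.coe_image] at hz hz'
        obtain ⟨a, ha, rfl⟩ := hz
        obtain ⟨b, hb, rfl⟩ := hz'
        have ha2 : a ∈ X ∧ cx p (p ^ (j + 1 - s)) a = cx p (p ^ (j + 1 - s)) x :=
          Finset.mem_filter.1 (Finset.mem_coe.1 ha)
        have hb2 : b ∈ X ∧ cx p (p ^ (j + 1 - s)) b = cx p (p ^ (j + 1 - s)) x :=
          Finset.mem_filter.1 (Finset.mem_coe.1 hb)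
        have hab := ha2.2.trans hb2.2.symm
        unfold cx at hab
        rw [Prod.mk.injEq] at hab
        have hmod := (ZMod.natCast_eq_natCast_iff _ _ _).1 hab.2
        have hval : ((a / p ^ a.factorization p : ℕ) : ZMod (p ^ (j + 1))).val =
            ((b / p ^ b.factorization p : ℕ) : ZMod (p ^ (j + 1))).val := by
          have e1 : ((a / p ^ a.factorization p : ℕ) : ZMod (p ^ (j + 1))).val %
              p ^ (j + 1 - s) = ((b / p ^ b.factorization p : ℕ) : ZMod (p ^ (j + 1))).val %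
              p ^ (j + 1 - s) := by
            rw [ZMod.val_natCast, ZMod.val_natCast, Nat.mod_mod_of_dvd _ hdvd,
              Nat.mod_mod_of_dvd _ hdvd]
            exact hmod
          have e2 : ((a / p ^ a.factorization p : ℕ) : ZMod (p ^ (j + 1))).val /
              p ^ (j + 1 - s) = ((b / p ^ b.factorization p : ℕ) : ZMod (p ^ (j + 1))).val /
              p ^ (j + 1 - s) := heq
          rw [← Nat.div_add_mod (((a / p ^ a.factorization p : ℕ) : ZMod (p ^ (j + 1))).val)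
            (p ^ (j + 1 - s)), e1, e2, Nat.div_add_mod]
        unfold cx
        rw [Prod.mk.injEq]
        exact ⟨hab.1, ZMod.val_injective _ hval⟩)
  rw [Nat.cast_pow, Real.log_pow] at h
  exact h

/-- Case E for a special prime: only `Y` is split; on at least `κ / 2` of the classes the
potential `P` drops by `Kp` -/
theorem caseES (ε κ Kp c : ℝ) (T : Finset ℕ) (hTn : T.Nonempty)
    (p j t0 : ℕ) (X : Finset ℕ) (hX : X.Nonempty) (hXp : ∀ x ∈ X, 0 < x) (Y : Finset ℕ)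
    (hY : Y.Nonempty) (hε : 0 < ε) (hKp : 0 ≤ Kp)
    (hhi : ((Y.filter (fun y => p ^ (j + 1) ∣ y + t0)).card : ℝ) ≤
      (1 - κ / 2) * (Y.card : ℝ))
    (hYK : hh (rY (p ^ (j + 1))) Y ≤ κ / 2 * Kp)
    (P : ℕ → ℝ) (hP : ∀ y ∈ Y, P y ≤ c)
    (hP' : ∀ y ∈ Y, ¬ p ^ (j + 1) ∣ y + t0 → P y ≤ c - Kp)
    (IH : ∀ y ∈ Y, av T (fun t => dt t X (cl (rY (p ^ (j + 1))) Y y)) ≤
        ε * Real.log (X.card : ℝ) + ε * Real.log ((cl (rY (p ^ (j + 1))) Y y).card : ℝ) + P y) :
    av T (fun t => dt t X Y) ≤ ε * Real.log (X.card : ℝ) + ε * Real.log (Y.card : ℝ) + c := by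
  have hYc : (0 : ℝ) < (Y.card : ℝ) := by exact_mod_cast hY.card_pos
  have h1 : av T (fun t => dt t X Y) ≤ hh (rY (p ^ (j + 1))) Y +
      av Y (fun y => av T (fun t => dt t X (cl (rY (p ^ (j + 1))) Y y))) := by
    have h2 := av_mono T _ _ (fun t (_ : t ∈ T) => dt_right_any (rY (p ^ (j + 1))) t X Y hX hY)
    rw [av_add, av_const T hTn, av_comm] at h2
    exact h2
  have h3 := av_mono Y _ _ IH
  have h4 : av Y (fun y => ε * Real.log (X.card : ℝ) +
      ε * Real.log ((cl (rY (p ^ (j + 1))) Y y).card : ℝ) + P y) =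
      ε * Real.log (X.card : ℝ) + ε * (Real.log (Y.card : ℝ) - hh (rY (p ^ (j + 1))) Y) +
        av Y P := by
    rw [av_add, av_add, av_const Y hY, av_mul, log_card_eq]
  have h5 : av Y P ≤ c - κ / 2 * Kp := by
    have h6 : av Y P ≤ av Y (fun y => c + (-Kp) * (if p ^ (j + 1) ∣ y + t0 then 0 else 1)) := by
      refine av_mono Y _ _ fun y hy => ?_
      split_ifs with hd
      · have := hP y hy
        linarith
      · have := hP' y hy hd
        linarith
    rw [av_add, av_const Y hY, av_mul] at h6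
    have h7 : κ / 2 ≤ av Y (fun y => (if p ^ (j + 1) ∣ y + t0 then (0 : ℝ) else 1)) := by
      unfold av
      rw [le_div_iff₀ hYc]
      have h8 : ∑ y ∈ Y, (if p ^ (j + 1) ∣ y + t0 then (0 : ℝ) else 1) =
          (Y.card : ℝ) - ((Y.filter (fun y => p ^ (j + 1) ∣ y + t0)).card : ℝ) := by
        have h9 : ∀ y ∈ Y, (if p ^ (j + 1) ∣ y + t0 then (0 : ℝ) else 1) =
            1 - (if p ^ (j + 1) ∣ y + t0 then (1 : ℝ) else 0) := by
          intro y _
          split_ifs <;> simp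
        rw [Finset.sum_congr rfl h9, Finset.sum_sub_distrib, ← Finset.sum_filter]
        simp
      rw [h8]
      linarith
    have h10 := mul_le_mul_of_nonneg_left h7 hKp
    linarith
  have h11 : 0 ≤ ε * hh (rY (p ^ (j + 1))) Y := mul_nonneg hε.le (hh_nonneg _ Y hY)
  rw [h4] at h3
  have h12 : ε * (Real.log (Y.card : ℝ) - hh (rY (p ^ (j + 1))) Y) =
      ε * Real.log (Y.card : ℝ) - ε * hh (rY (p ^ (j + 1))) Y := by ring
  rw [h12] at h3
  linarith

open Classical in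
/-- the potential: the weights of the unresolved primes of `W` -/
noncomputable def Ph (W : Finset ℕ) (K : ℕ → ℝ) (T Y : Finset ℕ) : ℝ :=
  ∑ p ∈ W.filter (fun p => ¬ Res T Y p), K p

theorem Ph_nonneg (W : Finset ℕ) (K : ℕ → ℝ) (hK : ∀ p, 0 ≤ K p) (T Y : Finset ℕ) :
    0 ≤ Ph W K T Y := Finset.sum_nonneg fun p _ => hK p

theorem Ph_mono (W : Finset ℕ) (K : ℕ → ℝ) (hK : ∀ p, 0 ≤ K p) (T : Finset ℕ)
    {Y Z : Finset ℕ} (hZ : Z ⊆ Y) : Ph W K T Z ≤ Ph W K T Y := by
  classical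
  unfold Ph
  refine Finset.sum_le_sum_of_subset_of_nonneg ?_ fun p _ _ => hK p
  intro p hp
  rw [Finset.mem_filter] at hp ⊢
  exact ⟨hp.1, fun h => hp.2 (h.mono hZ)⟩

theorem Ph_drop (W : Finset ℕ) (K : ℕ → ℝ) (hK : ∀ p, 0 ≤ K p) (T : Finset ℕ)
    {Y Z : Finset ℕ} (hZ : Z ⊆ Y) {p : ℕ} (hp : p ∈ W) (h1 : ¬ Res T Y p) (h2 : Res T Z p) :
    Ph W K T Z ≤ Ph W K T Y - K p := by
  classical
  unfold Ph
  rw [le_sub_iff_add_le]
  have hmem : p ∈ W.filter (fun p => ¬ Res T Y p) := Finset.mem_filter.2 ⟨hp, h1⟩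
  rw [← Finset.add_sum_erase _ _ hmem, add_comm]
  have : ∑ p ∈ W.filter (fun p => ¬ Res T Z p), K p ≤
      ∑ p ∈ (W.filter (fun p => ¬ Res T Y p)).erase p, K p := by
    refine Finset.sum_le_sum_of_subset_of_nonneg ?_ fun p _ _ => hK p
    intro q hq
    rw [Finset.mem_filter] at hq
    rw [Finset.mem_erase, Finset.mem_filter]
    refine ⟨?_, hq.1, fun h => hq.2 (h.mono hZ)⟩
    rintro rfl
    exact hq.2 h2
  linarith

end Pool.Agent.Helper21.BL
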