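import Pool.Agent.Helper23.BK.PropT
import Pool.Agent.Helper21.BL.Defs
import Pool.Agent.Helper21.BL.Cases
import Pool.Agent.Helper21.BL.CaseEc
import Pool.Agent.Helper21.BL.SpecE

set_option autoImplicit false

/-! # Project BL, Proposition T* -/

namespace Pool.Agent.Helper21.BL

open Finset Pool.Agent.Helper24.MD Pool.Agent.Helper23.BK

/-- Proposition T*: every prime is injective on `T`, resolved, or special (and then it lies in `W`) -/
theorem propTs (ε : ℝ) (hε : 0 < ε) (hε1 : ε ≤ 1) : ∃ m : ℕ, 2 ≤ m ∧ ∃ C : ℝ, 0 ≤ C ∧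
    ∀ T : Finset ℕ, m ≤ T.card → ∀ (W : Finset ℕ) (s : ℕ → ℕ) (Y : Finset ℕ), Y.Nonempty →
      (∀ y ∈ Y, 0 < y) →
      (∀ p : ℕ, p.Prime → Inj T p ∨ Res T Y p ∨ (p ∈ W ∧ Spec T Y p (s p))) →
      ∀ X : Finset ℕ, X.Nonempty → (∀ x ∈ X, 0 < x) →
        av T (fun t => dt t X Y) ≤ ε * Real.log (X.card : ℝ) + ε * Real.log (Y.card : ℝ) +
          C * ∑ p ∈ W, (1 + (s p : ℝ) * Real.log (p : ℝ)) := by
  classical
  obtain ⟨κ, hκ, hκ1, hR⟩ := rare_prod ε hε hε1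
  obtain ⟨L, hL⟩ : ∃ L : ℝ, L = Real.log (2 / κ) := ⟨_, rfl⟩
  have hL0 : 0 ≤ L := by
    rw [hL]
    apply Real.log_nonneg
    rw [le_div_iff₀ hκ]
    linarith
  obtain ⟨C4, hC4⟩ : ∃ C4 : ℝ, C4 = 2 * L / ε / ε := ⟨_, rfl⟩
  have hC40 : 0 ≤ C4 := by rw [hC4]; positivity
  have hC4B : 2 * L / ε ≤ C4 := by
    rw [hC4, le_div_iff₀ hε]
    have : 0 ≤ 2 * L / ε := by positivity
    nlinarith
  obtain ⟨δ, hδ, hδ1, hδκ, hδε⟩ : ∃ δ : ℝ, 0 < δ ∧ δ ≤ 1 / 2 ∧ δ ≤ κ / 4 ∧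
      4 * δ ≤ ε * (κ ^ 2 / 8) / 2 := by
    refine ⟨min (1 / 2) (min (κ / 4) (ε * (κ ^ 2 / 8) / 8)), by positivity, min_le_left _ _,
      (min_le_right _ _).trans (min_le_left _ _), ?_⟩
    have := (min_le_right (1 / 2) (min (κ / 4) (ε * (κ ^ 2 / 8) / 8))).trans
      (min_le_right (κ / 4) (ε * (κ ^ 2 / 8) / 8))
    linarith
  obtain ⟨r, hr⟩ : ∃ r : ℕ, Real.exp (C4 / δ) ≤ (r : ℝ) := ⟨⌈Real.exp (C4 / δ)⌉₊, Nat.le_ceil _⟩
  obtain ⟨m1, hm1⟩ : ∃ m1 : ℕ, 2 / ε ≤ (m1 : ℝ) := ⟨⌈2 / ε⌉₊, Nat.le_ceil _⟩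
  obtain ⟨m2, hm2⟩ : ∃ m2 : ℕ, ((r : ℝ) + (r : ℝ) ^ 4) * Real.log r *
      (2 / (ε * (κ ^ 2 / 8))) ≤ (m2 : ℝ) :=
    ⟨⌈((r : ℝ) + (r : ℝ) ^ 4) * Real.log r * (2 / (ε * (κ ^ 2 / 8)))⌉₊, Nat.le_ceil _⟩
  obtain ⟨C, hC⟩ : ∃ C : ℝ, C = 2 / κ * ((2 * L / ε + 1) / ε) := ⟨_, rfl⟩
  have hC0 : 0 ≤ C := by rw [hC]; positivity
  refine ⟨max 2 (max m1 m2), le_max_left _ _, C, hC0, ?_⟩
  intro T hTm
  have hT2 : 2 ≤ T.card := (le_max_left _ _).trans hTm
  have hTm1 : m1 ≤ T.card := (le_max_left _ _).trans ((le_max_right _ _).trans hTm)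
  have hTm2 : m2 ≤ T.card := (le_max_right _ _).trans ((le_max_right _ _).trans hTm)
  have hTn : T.Nonempty := Finset.card_pos.1 (by omega)
  have hTpos : (0 : ℝ) < (T.card : ℝ) := by exact_mod_cast (by omega : 0 < T.card)
  have hmC : 2 / ε ≤ (T.card : ℝ) := hm1.trans (by exact_mod_cast hTm1)
  have hmE : 4 * δ + ((r : ℝ) + (r : ℝ) ^ 4) * Real.log r / (T.card : ℝ) ≤
      ε * (κ ^ 2 / 8) := by
    have h1 : ((r : ℝ) + (r : ℝ) ^ 4) * Real.log r * (2 / (ε * (κ ^ 2 / 8))) ≤ (T.card : ℝ) :=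
      hm2.trans (by exact_mod_cast hTm2)
    have h2 : ((r : ℝ) + (r : ℝ) ^ 4) * Real.log r / (T.card : ℝ) ≤
        ε * (κ ^ 2 / 8) / 2 := by
      rw [div_le_iff₀ hTpos]
      have h3 : ((r : ℝ) + (r : ℝ) ^ 4) * Real.log r = (ε * (κ ^ 2 / 8) / 2) *
          (((r : ℝ) + (r : ℝ) ^ 4) * Real.log r * (2 / (ε * (κ ^ 2 / 8)))) := by
        field_simp
      rw [h3]
      exact mul_le_mul_of_nonneg_left h1 (by positivity)
    linarith
  intro W s Y hY hpos hG X hX hXp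
  -- the weights
  obtain ⟨K, hK⟩ : ∃ K : ℕ → ℝ, K = fun p => C * (1 + (s p : ℝ) * Real.log (p : ℝ)) := ⟨_, rfl⟩
  have hlogp : ∀ p : ℕ, 0 ≤ Real.log (p : ℝ) := fun p => Real.log_natCast_nonneg p
  have hK0 : ∀ p, 0 ≤ K p := by
    intro p
    rw [hK]
    have := hlogp p
    positivity
  have hKs : ∀ p, (2 * L / ε + (s p : ℝ) * Real.log (p : ℝ)) / ε ≤ κ / 2 * K p := by
    intro p
    have h1 := hlogp p
    have h2 : 0 ≤ (s p : ℝ) * Real.log (p : ℝ) := by positivity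
    have h3 : 0 ≤ 2 * L / ε := by positivity
    have h4 : κ / 2 * K p = ((2 * L / ε + 1) * (1 + (s p : ℝ) * Real.log (p : ℝ))) / ε := by
      rw [hK, hC]
      field_simp
    rw [h4]
    apply div_le_div_of_nonneg_right _ hε.le
    nlinarith [mul_nonneg h3 h2]
  suffices H : ∀ n : ℕ, ∀ Y : Finset ℕ, Y.card = n → Y.Nonempty → (∀ y ∈ Y, 0 < y) →
      (∀ p : ℕ, p.Prime → Inj T p ∨ Res T Y p ∨ (p ∈ W ∧ Spec T Y p (s p))) →
      ∀ X : Finset ℕ, X.Nonempty → (∀ x ∈ X, 0 < x) →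
        av T (fun t => dt t X Y) ≤ ε * Real.log (X.card : ℝ) + ε * Real.log (Y.card : ℝ) +
          Ph W K T Y by
    refine (H _ Y rfl hY hpos hG X hX hXp).trans ?_
    have h1 : Ph W K T Y ≤ C * ∑ p ∈ W, (1 + (s p : ℝ) * Real.log (p : ℝ)) := by
      unfold Ph
      rw [Finset.mul_sum, hK]
      refine Finset.sum_le_sum_of_subset_of_nonneg (Finset.filter_subset _ _) fun p _ _ => ?_
      have := hlogp p
      positivity
    linarith
  clear hY hpos hG hX hXp X Y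
  intro n
  induction n using Nat.strong_induction_on with
  | _ n ih =>
  intro Y hn hY hpos hG X hX hXp
  have IH : ∀ Y' : Finset ℕ, Y' ⊆ Y → Y'.card < Y.card → Y'.Nonempty →
      ∀ X' : Finset ℕ, X'.Nonempty → (∀ x ∈ X', 0 < x) →
        av T (fun t => dt t X' Y') ≤
          ε * Real.log (X'.card : ℝ) + ε * Real.log (Y'.card : ℝ) + Ph W K T Y' := by
    intro Y' hsub hlt hne X' hX' hXp'
    refine ih Y'.card (hn ▸ hlt) Y' rfl hne (fun y hy => hpos y (hsub hy)) ?_ X' hX' hXp'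
    intro p hp
    rcases hG p hp with h1 | h1 | h1
    · exact Or.inl h1
    · exact Or.inr (Or.inl (h1.mono hsub))
    · exact Or.inr (Or.inr ⟨h1.1, h1.2.mono hsub⟩)
  have IH' : ∀ Y' : Finset ℕ, Y' ⊆ Y → Y'.card < Y.card → Y'.Nonempty →
      ∀ X' : Finset ℕ, X'.Nonempty → (∀ x ∈ X', 0 < x) →
        av T (fun t => dt t X' Y') ≤
          ε * Real.log (X'.card : ℝ) + ε * Real.log (Y'.card : ℝ) + Ph W K T Y := by
    intro Y' hsub hlt hne X' hX' hXp'
    have h1 := IH Y' hsub hlt hne X' hX' hXp'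
    have h2 := Ph_mono W K hK0 T hsub
    linarith
  have hPh0 := Ph_nonneg W K hK0 T Y
  have hYcard : (0 : ℝ) < (Y.card : ℝ) := by exact_mod_cast Finset.card_pos.2 hY
  by_cases hrare : ∀ t ∈ T, ∀ p : ℕ, ∃ e : ℕ, (1 - κ) * (Y.card : ℝ) ≤
      ((Y.filter (fun y => (y + t).factorization p = e)).card : ℝ)
  · -- terminal case
    have h1 : av T (fun t => dt t X Y) ≤
        av T (fun _ => ε * Real.log (X.card : ℝ) + ε * Real.log (Y.card : ℝ)) :=
      av_mono _ _ _ fun t ht => dt_rare ε κ hR t X Y hX hY hXp hpos (hrare t ht)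
    rw [av_const _ hTn] at h1
    linarith
  push Not at hrare
  obtain ⟨t0, ht0, p, hnot⟩ := hrare
  have hp : p.Prime := by
    by_contra hp
    have h1 := hnot 0
    have h2 : Y.filter (fun y => (y + t0).factorization p = 0) = Y := by
      apply Finset.filter_true_of_mem
      intro y _
      exact Nat.factorization_eq_zero_of_not_prime _ hp
    rw [h2] at h1
    nlinarith
  -- the valuation of `y + t0` is not constant
  have hnc : ¬ ∀ y ∈ Y, ∀ y' ∈ Y, (y + t0).factorization p = (y' + t0).factorization p := by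
    intro h1
    obtain ⟨y0, hy0⟩ := hY
    have h2 := hnot ((y0 + t0).factorization p)
    have h3 : Y.filter (fun y => (y + t0).factorization p = (y0 + t0).factorization p) = Y := by
      apply Finset.filter_true_of_mem
      intro y hy
      exact h1 y hy y0 hy0
    rw [h3] at h2
    nlinarith
  have hnres : ¬ Res T Y p := fun h => hnc (h t0 ht0)
  obtain ⟨j, hlo, hhi⟩ := thresh κ hκ hκ1 p t0 hp Y hY hpos hnot
  have hY00 : 0 < (Y.filter (fun y => p ^ (j + 1) ∣ y + t0)).card := by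
    have : (0 : ℝ) < ((Y.filter (fun y => p ^ (j + 1) ∣ y + t0)).card : ℝ) :=
      lt_of_lt_of_le (by positivity) hlo
    exact_mod_cast this
  have hY0 : (Y.filter (fun y => p ^ (j + 1) ∣ y + t0)).Nonempty := Finset.card_pos.1 hY00
  have hY0lt : (Y.filter (fun y => p ^ (j + 1) ∣ y + t0)).card < Y.card := by
    have : ((Y.filter (fun y => p ^ (j + 1) ∣ y + t0)).card : ℝ) < (Y.card : ℝ) := by
      have : 0 < κ / 2 * (Y.card : ℝ) := by positivity
      linarith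
    exact_mod_cast this
  have hYp : (Y.filter (fun y => ¬ p ^ (j + 1) ∣ y + t0)).Nonempty := by
    apply Finset.card_pos.1
    have h1 : (Y.filter (fun y => p ^ (j + 1) ∣ y + t0)).card +
        (Y.filter (fun y => ¬ p ^ (j + 1) ∣ y + t0)).card = Y.card :=
      Finset.card_filter_add_card_filter_not _
    omega
  have hcost : Real.log (Y.card : ℝ) -
      Real.log ((Y.filter (fun y => p ^ (j + 1) ∣ y + t0)).card : ℝ) ≤ L := by
    have h1 : (0 : ℝ) < ((Y.filter (fun y => p ^ (j + 1) ∣ y + t0)).card : ℝ) := by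
      exact_mod_cast hY00
    rw [← Real.log_div hYcard.ne' h1.ne', hL]
    apply Real.log_le_log (by positivity)
    rw [div_le_div_iff₀ h1 hκ]
    nlinarith
  have IHcl : ∀ X' : Finset ℕ, X'.Nonempty → (∀ x ∈ X', 0 < x) → ∀ y ∈ Y,
      av T (fun t => dt t X' (cl (rY (p ^ (j + 1))) Y y)) ≤
        ε * Real.log (X'.card : ℝ) +
          ε * Real.log ((cl (rY (p ^ (j + 1))) Y y).card : ℝ) + Ph W K T Y := by
    intro X' hX' hXp' y hy
    exact IH' _ (Finset.filter_subset _ _) (cl_card_lt' _ t0 Y hYp hY0 y)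
      ⟨y, mem_cl_self _ _ _ hy⟩ X' hX' hXp'
  -- case C
  by_cases hC : hh (cx p (p ^ (j + 1))) X ≤ ε * hh (rY (p ^ (j + 1))) Y
  · exact caseC1 ε _ hε T hTn p j hp X hX hXp Y hY hC IHcl
  push Not at hC
  rcases hG p hp with hinj | hres | ⟨hpW, t1, ht1, hsp, hsd⟩
  · -- a good prime
    by_cases hB : 2 * L / ε ≤ hh (cx p (p ^ (j + 1))) X
    · refine caseB1 (cx p (p ^ (j + 1))) ε L _ hε T hmC t0 ht0 X hX hXp Y _
        (Finset.filter_subset _ _) hY0 ?_ hcost hB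
        (fun X' hX' hXp' => IH' _ (Finset.filter_subset _ _) hY0lt hY0 X' hX' hXp')
      intro t ht htt
      exact dt_zero t t0 p j hp (fun h => htt (hinj t ht t0 ht0 h)) X _ hX hXp hY0
        (fun y hy => (Finset.mem_filter.1 hy).2)
    push Not at hB
    have hX4 : hh (cx p (p ^ (j + 1))) X ≤ C4 := hB.le.trans hC4B
    have hY4 : hh (rY (p ^ (j + 1))) Y ≤ C4 := by
      rw [hC4, le_div_iff₀ hε]
      nlinarith
    refine caseE1 ε κ C4 δ _ hε hκ (by linarith) hC40 hδ hδ1 hδκ r hr T hTn hmE p j t0 hp hinj X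
      hX hXp Y hY hlo hhi hX4 hY4 ?_
    intro X' hX' hXp' Y' hY' hne ⟨y, _, hsub⟩
    exact IH' Y' hY' (lt_of_le_of_lt (Finset.card_le_card hsub) (cl_card_lt' _ t0 Y hYp hY0 y))
      hne X' hX' hXp'
  · exact absurd hres hnres
  · -- a special prime
    have ht01 : t0 = t1 := by
      by_contra hne
      exact hnc (spec_const hp hpos hsp (hsd t0 ht0 hne))
    subst ht01
    have hsj : s p ≤ j := by
      by_contra hcon
      obtain ⟨y, hy⟩ := hYp
      rw [Finset.mem_filter] at hy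
      exact hy.2 ((pow_dvd_pow p (by omega)).trans (hsp y hy.1))
    by_cases hB : 2 * L / ε ≤ hh (cx p (p ^ (j + 1 - s p))) X
    · refine caseB1 (cx p (p ^ (j + 1 - s p))) ε L _ hε T hmC t0 ht0 X hX hXp Y _
        (Finset.filter_subset _ _) hY0 ?_ hcost hB
        (fun X' hX' hXp' => IH' _ (Finset.filter_subset _ _) hY0lt hY0 X' hX' hXp')
      intro t ht htt
      exact dt_zero_coarse t t0 p j (s p) hp hsj (hsd t ht htt) X _ hX hXp hY0
        (fun y hy => hpos y (Finset.mem_filter.1 hy).1) (fun y hy => (Finset.mem_filter.1 hy).2)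
    push Not at hB
    have hfine := hh_fine p j (s p) hp hsj X hX
    have hYK : hh (rY (p ^ (j + 1))) Y ≤ κ / 2 * K p := by
      refine le_trans ?_ (hKs p)
      rw [le_div_iff₀ hε]
      linarith
    refine caseES ε κ (K p) _ T hTn p j t0 X hX hXp Y hY hε (hK0 p) hhi hYK
      (fun y => Ph W K T (cl (rY (p ^ (j + 1))) Y y)) ?_ ?_ ?_
    · intro y _
      exact Ph_mono W K hK0 T (Finset.filter_subset _ _)
    · intro y _ hyn
      exact Ph_drop W K hK0 T (Finset.filter_subset _ _) hpW hnres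
        (res_class hp hpos hsp hsd y hyn)
    · intro y hy
      exact IH _ (Finset.filter_subset _ _) (cl_card_lt' _ t0 Y hYp hY0 y)
        ⟨y, mem_cl_self _ _ _ hy⟩ X hX hXp

end Pool.Agent.Helper21.BL
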